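import Mathlib

set_option autoImplicit false

namespace Pool.Agent.H48R3.GR

open Filter Topology Finset

/-- Greedy basis data. -/
structure GB (𝕜 : Type) [RCLike 𝕜] (X : Type) [NormedAddCommGroup X] [NormedSpace 𝕜 X] where
  e : ℕ → X
  f : ℕ → X →L[𝕜] 𝕜
  C : ℝ
  bi : ∀ i j : ℕ, f i (e j) = if i = j then 1 else 0
  exp : ∀ x : X, Tendsto (fun N : ℕ => ∑ n ∈ Finset.range N, f n x • e n) atTop (𝓝 x)
  gr : ∀ (x : X) (A B : Finset ℕ) (a : ℕ → 𝕜),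
          (∀ i ∈ A, ∀ j ∉ A, ‖f j x‖ ≤ ‖f i x‖) → B.card ≤ A.card →
          ‖x - ∑ i ∈ A, f i x • e i‖ ≤ C * ‖x - ∑ i ∈ B, a i • e i‖

variable {𝕜 : Type} [RCLike 𝕜] {X : Type} [NormedAddCommGroup X] [NormedSpace 𝕜 X]

namespace GB

variable (b : GB 𝕜 X)

/-- projection -/
noncomputable def P (A : Finset ℕ) (x : X) : X := ∑ i ∈ A, b.f i x • b.e i

theorem f_sum (A : Finset ℕ) (a : ℕ → 𝕜) (j : ℕ) :
    b.f j (∑ i ∈ A, a i • b.e i) = if j ∈ A then a j else 0 := by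
  rw [map_sum]
  simp only [map_smul, b.bi, smul_eq_mul, mul_ite, mul_one, mul_zero]
  rw [Finset.sum_ite_eq]

theorem f_P (A : Finset ℕ) (x : X) (j : ℕ) : b.f j (b.P A x) = if j ∈ A then b.f j x else 0 :=
  b.f_sum A _ j

theorem e_ne (i : ℕ) : b.e i ≠ 0 := by
  intro h
  have := b.bi i i
  rw [h] at this
  simp at this

theorem C_ge : 1 ≤ b.C := by
  have h := b.gr (b.e 0) ∅ ∅ 0 (by simp) le_rfl
  simp only [Finset.sum_empty, sub_zero] at h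
  have h0 : 0 < ‖b.e 0‖ := norm_pos_iff.2 (b.e_ne 0)
  by_contra hc
  push Not at hc
  nlinarith

theorem C_pos : 0 < b.C := lt_of_lt_of_le one_pos b.C_ge

theorem e_le (i j : ℕ) : ‖b.e j‖ ≤ b.C * ‖b.e i‖ := by
  rcases eq_or_ne i j with h | h
  · rw [h]
    have := b.C_ge
    have h2 := norm_nonneg (b.e j)
    nlinarith
  · have hx := b.gr (b.e i + b.e j) {i} {j} (fun _ => 1) (by
      intro k hk l hl
      rw [Finset.mem_singleton] at hk hl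
      subst hk
      rw [map_add, map_add, b.bi, b.bi, b.bi, b.bi]
      simp only [hl, h, if_true, if_false, zero_add, add_zero]
      split_ifs <;> simp) (by simp)
    have e1 : b.e i + b.e j - ∑ k ∈ ({i} : Finset ℕ), b.f k (b.e i + b.e j) • b.e k = b.e j := by
      rw [Finset.sum_singleton, map_add, b.bi, b.bi]
      simp [h]
    have e2 : b.e i + b.e j - ∑ k ∈ ({j} : Finset ℕ), (1:𝕜) • b.e k = b.e i := by
      simp
    rw [e1, e2] at hx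
    exact hx

theorem coef_bdd (x : X) : ∃ M : ℝ, 0 ≤ M ∧ ∀ n, ‖b.f n x‖ ≤ M := by
  have h1 : Tendsto (fun N : ℕ => b.f N x • b.e N) atTop (𝓝 0) := by
    have h2 := (b.exp x).comp (tendsto_add_atTop_nat 1)
    have h3 := h2.sub (b.exp x)
    rw [sub_self] at h3
    refine h3.congr fun N => ?_
    simp only [Function.comp_apply, Finset.sum_range_succ]
    abel
  have h4 := h1.norm
  rw [norm_zero] at h4
  obtain ⟨M, hM⟩ := h4.bddAbove_range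
  have h0 : 0 < ‖b.e 0‖ := norm_pos_iff.2 (b.e_ne 0)
  have hM0 : 0 ≤ M := (norm_nonneg _).trans (hM ⟨0, rfl⟩)
  refine ⟨b.C * M / ‖b.e 0‖, by have := b.C_pos; positivity, fun n => ?_⟩
  have h5 : ‖b.f n x • b.e n‖ ≤ M := hM ⟨n, rfl⟩
  rw [norm_smul] at h5
  rw [le_div_iff₀ h0]
  have h6 := b.e_le n 0
  have h7 := norm_nonneg (b.f n x)
  calc ‖b.f n x‖ * ‖b.e 0‖ ≤ ‖b.f n x‖ * (b.C * ‖b.e n‖) := by gcongr
    _ = b.C * (‖b.f n x‖ * ‖b.e n‖) := by ring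
    _ ≤ b.C * M := by have := b.C_pos; gcongr

theorem supp (x : X) (F : Finset ℕ) : ‖x - b.P F x‖ ≤ b.C * ‖x‖ := by
  obtain ⟨M, hM0, hM⟩ := b.coef_bdd x
  have h := b.gr (x + ∑ i ∈ F, ((2 * M : ℝ) : 𝕜) • b.e i) F F (fun _ => ((2 * M : ℝ) : 𝕜)) (by
    intro i hi j hj
    rw [map_add, map_add, b.f_sum, b.f_sum, if_pos hi, if_neg hj, add_zero]
    have h1 : ‖((2 * M : ℝ) : 𝕜)‖ = 2 * M := by
      rw [RCLike.norm_ofReal, abs_of_nonneg (by positivity)]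
    have h2 : ‖((2 * M : ℝ) : 𝕜)‖ - ‖b.f i x‖ ≤ ‖b.f i x + ((2 * M : ℝ) : 𝕜)‖ := by
      have := norm_sub_norm_le ((2 * M : ℝ) : 𝕜) (-(b.f i x))
      rw [norm_neg, sub_neg_eq_add, add_comm] at this
      exact this
    have h3 := hM i
    have h4 := hM j
    linarith) le_rfl
  have e1 : x + ∑ i ∈ F, ((2 * M : ℝ) : 𝕜) • b.e i -
      ∑ i ∈ F, b.f i (x + ∑ i ∈ F, ((2 * M : ℝ) : 𝕜) • b.e i) • b.e i = x - b.P F x := by
    have : ∑ i ∈ F, b.f i (x + ∑ i ∈ F, ((2 * M : ℝ) : 𝕜) • b.e i) • b.e i =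
        b.P F x + ∑ i ∈ F, ((2 * M : ℝ) : 𝕜) • b.e i := by
      unfold P
      rw [← Finset.sum_add_distrib]
      apply Finset.sum_congr rfl
      intro i hi
      rw [map_add, b.f_sum, if_pos hi, add_smul]
    rw [this]
    abel
  rw [e1, add_sub_cancel_right] at h
  exact h

theorem P_le (x : X) (F : Finset ℕ) : ‖b.P F x‖ ≤ (1 + b.C) * ‖x‖ := by
  have h1 := b.supp x F
  have h2 : b.P F x = x - (x - b.P F x) := by abel
  rw [h2]
  calc ‖x - (x - b.P F x)‖ ≤ ‖x‖ + ‖x - b.P F x‖ := norm_sub_le _ _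
    _ ≤ (1 + b.C) * ‖x‖ := by linarith

theorem K1 (v : X) (D E : Finset ℕ) (hDE : Disjoint D E) (hcard : E.card ≤ D.card) (β : ℝ)
    (hβ : 0 ≤ β) (hv : ∀ i ∈ D, β ≤ ‖b.f i v‖) (a : ℕ → 𝕜) (ha : ∀ i ∈ E, ‖a i‖ ≤ β) :
    ‖∑ i ∈ E, a i • b.e i‖ ≤ b.C * ‖b.P D v‖ := by
  have h := b.gr (b.P D v + ∑ i ∈ E, a i • b.e i) D E a (by
    intro i hi j hj
    rw [map_add, map_add, b.f_P, b.f_P, b.f_sum, b.f_sum, if_pos hi, if_neg hj, zero_add]
    have hiE : i ∉ E := Finset.disjoint_left.1 hDE hi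
    rw [if_neg hiE, add_zero]
    split_ifs with h
    · exact (ha j h).trans (hv i hi)
    · rw [norm_zero]; exact norm_nonneg _) hcard
  have e1 : b.P D v + ∑ i ∈ E, a i • b.e i -
      ∑ i ∈ D, b.f i (b.P D v + ∑ i ∈ E, a i • b.e i) • b.e i = ∑ i ∈ E, a i • b.e i := by
    have : ∑ i ∈ D, b.f i (b.P D v + ∑ i ∈ E, a i • b.e i) • b.e i = b.P D v := by
      conv_rhs => unfold P
      apply Finset.sum_congr rfl
      intro i hi
      have hiE : i ∉ E := Finset.disjoint_left.1 hDE hi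
      rw [map_add, b.f_P, b.f_sum, if_pos hi, if_neg hiE, add_zero]
    rw [this]
    abel
  rw [e1, add_sub_cancel_right] at h
  exact h

/-- fundamental function -/
noncomputable def ψ (m : ℕ) : ℝ := ‖∑ i ∈ Finset.range m, b.e i‖

theorem exists_fresh (G : Finset ℕ) (m : ℕ) : ∃ H : Finset ℕ, Disjoint G H ∧ H.card = m := by
  obtain ⟨t, ht, hc⟩ := Infinite.exists_superset_card_eq G (G.card + m) (by omega)
  refine ⟨t \ G, Finset.disjoint_sdiff, ?_⟩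
  rw [Finset.card_sdiff_of_subset ht, hc]
  omega

theorem F1 (G : Finset ℕ) (a : ℕ → 𝕜) (ha : ∀ i ∈ G, ‖a i‖ ≤ 1) :
    ‖∑ i ∈ G, a i • b.e i‖ ≤ b.C ^ 2 * b.ψ G.card := by
  obtain ⟨H, hH, hHc⟩ := exists_fresh (G ∪ Finset.range G.card) G.card
  rw [Finset.disjoint_union_left] at hH
  have hone : ∀ (S : Finset ℕ), b.P S (∑ i ∈ S, (1:𝕜) • b.e i) = ∑ i ∈ S, (1:𝕜) • b.e i := by
    intro S
    unfold P
    apply Finset.sum_congr rfl
    intro i hi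
    rw [b.f_sum, if_pos hi]
  have h1 := b.K1 (∑ i ∈ H, (1:𝕜) • b.e i) H G hH.1.symm (by omega) 1 zero_le_one
    (fun i hi => by rw [b.f_sum, if_pos hi, norm_one]) a ha
  have h2 := b.K1 (∑ i ∈ Finset.range G.card, (1:𝕜) • b.e i) (Finset.range G.card) H hH.2
    (by rw [hHc, Finset.card_range]) 1 zero_le_one
    (fun i hi => by rw [b.f_sum, if_pos hi, norm_one]) (fun _ => 1) (fun i _ => by simp)
  rw [hone] at h1 h2
  have h3 : ‖∑ i ∈ Finset.range G.card, (1:𝕜) • b.e i‖ = b.ψ G.card := by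
    unfold ψ; simp
  rw [h3] at h2
  have := b.C_pos
  calc ‖∑ i ∈ G, a i • b.e i‖ ≤ b.C * ‖∑ i ∈ H, (1:𝕜) • b.e i‖ := h1
    _ ≤ b.C * (b.C * b.ψ G.card) := by gcongr
    _ = b.C ^ 2 * b.ψ G.card := by ring

theorem F2 (v : X) (D : Finset ℕ) (β : ℝ) (hβ : 0 ≤ β) (hv : ∀ i ∈ D, β ≤ ‖b.f i v‖) :
    β * b.ψ D.card ≤ b.C ^ 2 * (1 + b.C) * ‖v‖ := by
  obtain ⟨H, hH, hHc⟩ := exists_fresh (D ∪ Finset.range D.card) D.card
  rw [Finset.disjoint_union_left] at hH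
  have h1 := b.K1 v D H hH.1 (by omega) β hβ hv (fun _ => ((β : ℝ) : 𝕜))
    (fun i _ => by rw [RCLike.norm_ofReal, abs_of_nonneg hβ])
  have h2 := b.K1 (∑ i ∈ H, ((β : ℝ) : 𝕜) • b.e i) H (Finset.range D.card) hH.2.symm
    (by rw [hHc, Finset.card_range]) β hβ
    (fun i hi => by rw [b.f_sum H (fun _ => ((β : ℝ) : 𝕜)), if_pos hi, RCLike.norm_ofReal,
      abs_of_nonneg hβ]) (fun _ => ((β : ℝ) : 𝕜))
    (fun i _ => by rw [RCLike.norm_ofReal, abs_of_nonneg hβ])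
  have hone : b.P H (∑ i ∈ H, ((β : ℝ) : 𝕜) • b.e i) = ∑ i ∈ H, ((β : ℝ) : 𝕜) • b.e i := by
    unfold P
    apply Finset.sum_congr rfl
    intro i hi
    rw [b.f_sum H (fun _ => ((β : ℝ) : 𝕜)), if_pos hi]
  rw [hone] at h2
  have h3 : ‖∑ i ∈ Finset.range D.card, ((β : ℝ) : 𝕜) • b.e i‖ = β * b.ψ D.card := by
    rw [← Finset.smul_sum, norm_smul, RCLike.norm_ofReal, abs_of_nonneg hβ]
    rfl
  rw [h3] at h2
  have h4 := b.P_le v D
  have := b.C_pos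
  calc β * b.ψ D.card ≤ b.C * ‖∑ i ∈ H, ((β : ℝ) : 𝕜) • b.e i‖ := h2
    _ ≤ b.C * (b.C * ‖b.P D v‖) := by gcongr
    _ ≤ b.C * (b.C * ((1 + b.C) * ‖v‖)) := by gcongr
    _ = b.C ^ 2 * (1 + b.C) * ‖v‖ := by ring

/-- The symmetric dual ball. -/
def M (g : ℕ → ℝ) : Prop := (∀ i, 0 ≤ g i) ∧ ∀ G : Finset ℕ, ∑ i ∈ G, g i ≤ b.C ^ 2 * b.ψ G.card

theorem M_perm (g : ℕ → ℝ) (hg : b.M g) (σ : Equiv.Perm ℕ) : b.M (fun k => g (σ k)) := by
  refine ⟨fun i => hg.1 _, fun G => ?_⟩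
  have h := hg.2 (G.map σ.toEmbedding)
  rw [Finset.sum_map, Finset.card_map] at h
  exact h

/-- upper bound for the symmetric norm -/
def G1 (u : X) (R : ℝ) : Prop := ∀ g, b.M g → ∀ F : Finset ℕ, ∑ i ∈ F, g i * ‖b.f i u‖ ≤ R

/-- upper bound for the suppression norm -/
def G2 (v : X) (R : ℝ) : Prop := ∀ F : Finset ℕ, ‖v - b.P F v‖ ≤ R

theorem G2_norm (v : X) (R : ℝ) (h : b.G2 v R) : ‖v‖ ≤ R := by
  have := h ∅
  simpa [P] using this

theorem G1_nonneg (u : X) (R : ℝ) (h : b.G1 u R) : 0 ≤ R := by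
  have h0 : b.M (fun _ => 0) := ⟨fun _ => le_rfl, fun G => by
    have : 0 ≤ b.ψ G.card := norm_nonneg _
    simp only [Finset.sum_const_zero]
    positivity⟩
  have := h _ h0 ∅
  simpa using this

theorem G1_norm (u : X) (R : ℝ) (h : b.G1 u R) : ‖u‖ ≤ R := by
  obtain ⟨g, hg1, hg2⟩ := exists_dual_vector'' 𝕜 u
  have hM : b.M (fun i => ‖g (b.e i)‖) := by
    refine ⟨fun i => norm_nonneg _, fun G => ?_⟩
    set a : ℕ → 𝕜 := fun i => (starRingEnd 𝕜) (g (b.e i)) / ((‖g (b.e i)‖ : ℝ) : 𝕜) with ha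
    have ha1 : ∀ i, ‖a i‖ ≤ 1 := by
      intro i
      simp only [ha]
      rw [norm_div, RCLike.norm_conj, RCLike.norm_ofReal, abs_of_nonneg (norm_nonneg _)]
      exact div_self_le_one _
    have ha2 : ∀ i, a i * g (b.e i) = ((‖g (b.e i)‖ : ℝ) : 𝕜) := by
      intro i
      simp only [ha]
      rcases eq_or_ne (‖g (b.e i)‖) 0 with h0 | h0
      · rw [h0]
        rw [norm_eq_zero] at h0
        rw [h0]; simp
      · have h0' : ((‖g (b.e i)‖ : ℝ) : 𝕜) ≠ 0 := by exact_mod_cast h0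
        rw [div_mul_eq_mul_div, RCLike.conj_mul, div_eq_iff h0']
        push_cast
        ring
    have h1 := b.F1 G a (fun i _ => ha1 i)
    have h2 : ‖g (∑ i ∈ G, a i • b.e i)‖ ≤ ‖∑ i ∈ G, a i • b.e i‖ := by
      calc ‖g (∑ i ∈ G, a i • b.e i)‖ ≤ ‖g‖ * ‖∑ i ∈ G, a i • b.e i‖ := g.le_opNorm _
        _ ≤ 1 * ‖∑ i ∈ G, a i • b.e i‖ := by gcongr
        _ = _ := one_mul _
    have h3 : g (∑ i ∈ G, a i • b.e i) = ((∑ i ∈ G, ‖g (b.e i)‖ : ℝ) : 𝕜) := by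
      rw [map_sum]
      push_cast
      apply Finset.sum_congr rfl
      intro i _
      rw [map_smul, smul_eq_mul, ha2]
    rw [h3, RCLike.norm_ofReal, abs_of_nonneg (Finset.sum_nonneg fun i _ => norm_nonneg _)] at h2
    exact h2.trans h1
  have h1 := h _ hM
  have h2 : ∀ N, ‖g (∑ n ∈ Finset.range N, b.f n u • b.e n)‖ ≤ R := by
    intro N
    refine le_trans ?_ (h1 (Finset.range N))
    rw [map_sum]
    refine (norm_sum_le _ _).trans (le_of_eq ?_)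
    apply Finset.sum_congr rfl
    intro i _
    rw [map_smul, smul_eq_mul, norm_mul, mul_comm]
  have h3 : Tendsto (fun N => ‖g (∑ n ∈ Finset.range N, b.f n u • b.e n)‖) atTop (𝓝 ‖g u‖) :=
    ((g.continuous.tendsto u).comp (b.exp u)).norm
  have h4 := le_of_tendsto' h3 h2
  rw [hg2, RCLike.norm_ofReal, abs_of_nonneg (norm_nonneg _)] at h4
  exact h4

end GB

end Pool.Agent.H48R3.GR
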