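import Pool.Agent.H48R3.GR.Basic

set_option autoImplicit false

namespace Pool.Agent.H48R3.GR

open Filter Topology Finset

variable {𝕜 : Type} [RCLike 𝕜] {X : Type} [NormedAddCommGroup X] [NormedSpace 𝕜 X]

/-- a permutation swapping two disjoint finite sets of the same size -/
theorem exists_perm (D E : Finset ℕ) (hd : Disjoint D E) (hc : D.card = E.card) :
    ∃ σ : Equiv.Perm ℕ, D.map σ.toEmbedding = E ∧ ∀ k, k ∉ D → k ∉ E → σ k = k := by
  set m := D.card with hm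
  let fD : Fin m ↪ ℕ := (D.orderEmbOfFin rfl).toEmbedding
  let fE : Fin m ↪ ℕ := (E.orderEmbOfFin hc.symm).toEmbedding
  have hfD : ∀ i, fD i ∈ D := fun i => D.orderEmbOfFin_mem rfl i
  have hfE : ∀ i, fE i ∈ E := fun i => E.orderEmbOfFin_mem hc.symm i
  let emb : Fin m ⊕ Fin m ↪ ℕ := ⟨Sum.elim fD fE, by
    rintro (x | x) (y | y) hxy
    · simp only [Sum.elim_inl] at hxy
      rw [fD.injective hxy]
    · simp only [Sum.elim_inl, Sum.elim_inr] at hxy
      exact absurd (hfE y) (Finset.disjoint_left.1 hd (hxy ▸ hfD x))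
    · simp only [Sum.elim_inl, Sum.elim_inr] at hxy
      exact absurd (hfE x) (Finset.disjoint_left.1 hd (hxy ▸ hfD y))
    · simp only [Sum.elim_inr] at hxy
      rw [fE.injective hxy]⟩
  let p : Equiv.Perm (Fin m ⊕ Fin m) := Equiv.sumComm _ _
  refine ⟨p.viaFintypeEmbedding emb, ?_, ?_⟩
  · apply Finset.eq_of_subset_of_card_le
    · intro k hk
      rw [Finset.mem_map] at hk
      obtain ⟨l, hl, rfl⟩ := hk
      have : l ∈ Set.range (D.orderEmbOfFin rfl) := by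
        rw [Finset.range_orderEmbOfFin]; exact hl
      obtain ⟨i, rfl⟩ := this
      have h1 : (p.viaFintypeEmbedding emb) (emb (Sum.inl i)) = emb (p (Sum.inl i)) :=
        Equiv.Perm.viaFintypeEmbedding_apply_image p emb (Sum.inl i)
      have h2 : emb (Sum.inl i) = (D.orderEmbOfFin rfl) i := rfl
      have h3 : emb (p (Sum.inl i)) = fE i := rfl
      rw [h2, h3] at h1
      show (p.viaFintypeEmbedding emb) ((D.orderEmbOfFin rfl) i) ∈ E
      rw [h1]
      exact hfE i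
    · rw [Finset.card_map, ← hc]
  · intro k hkD hkE
    apply Equiv.Perm.viaFintypeEmbedding_apply_notMem_range
    rintro ⟨(i | i), rfl⟩
    · exact hkD (hfD i)
    · exact hkE (hfE i)

namespace GB

variable (b : GB 𝕜 X)

/-- the set of costs -/
def S (C1 : ℝ) (x : X) : Set ℝ :=
  {r | ∃ (u v : X) (R1 R2 : ℝ), u + v = x ∧ b.G1 u R1 ∧ b.G2 v R2 ∧ r = R1 + C1 * R2}

theorem S_ge (C1 : ℝ) (h1 : 1 ≤ C1) (x : X) (r : ℝ) (hr : r ∈ b.S C1 x) : ‖x‖ ≤ r := by
  obtain ⟨u, v, R1, R2, rfl, hu, hv, rfl⟩ := hr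
  have h2 := b.G1_norm u R1 hu
  have h3 := b.G2_norm v R2 hv
  have h4 : 0 ≤ R2 := (norm_nonneg _).trans h3
  calc ‖u + v‖ ≤ ‖u‖ + ‖v‖ := norm_add_le _ _
    _ ≤ R1 + C1 * R2 := by nlinarith

theorem G1_zero : b.G1 (0 : X) 0 := by
  intro g _ F
  simp

theorem S_mem (C1 : ℝ) (x : X) : C1 * (b.C * ‖x‖) ∈ b.S C1 x :=
  ⟨0, x, 0, b.C * ‖x‖, by simp, b.G1_zero, fun F => b.supp x F, by simp⟩

theorem S_bdd (C1 : ℝ) (h1 : 1 ≤ C1) (x : X) : BddBelow (b.S C1 x) :=
  ⟨‖x‖, fun r hr => b.S_ge C1 h1 x r hr⟩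

theorem G1_add (u u' : X) (R R' : ℝ) (h : b.G1 u R) (h' : b.G1 u' R') :
    b.G1 (u + u') (R + R') := by
  intro g hg F
  have h1 := h g hg F
  have h2 := h' g hg F
  calc ∑ i ∈ F, g i * ‖b.f i (u + u')‖ ≤ ∑ i ∈ F, (g i * ‖b.f i u‖ + g i * ‖b.f i u'‖) := by
        apply Finset.sum_le_sum
        intro i _
        rw [map_add, ← mul_add]
        exact mul_le_mul_of_nonneg_left (norm_add_le _ _) (hg.1 i)
    _ = ∑ i ∈ F, g i * ‖b.f i u‖ + ∑ i ∈ F, g i * ‖b.f i u'‖ := Finset.sum_add_distrib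
    _ ≤ R + R' := add_le_add h1 h2

theorem G1_smul (t : 𝕜) (u : X) (R : ℝ) (h : b.G1 u R) : b.G1 (t • u) (‖t‖ * R) := by
  intro g hg F
  have h1 := h g hg F
  calc ∑ i ∈ F, g i * ‖b.f i (t • u)‖ = ‖t‖ * ∑ i ∈ F, g i * ‖b.f i u‖ := by
        rw [Finset.mul_sum]
        apply Finset.sum_congr rfl
        intro i _
        rw [map_smul, norm_smul]
        ring
    _ ≤ ‖t‖ * R := mul_le_mul_of_nonneg_left h1 (norm_nonneg _)

theorem P_add (F : Finset ℕ) (x y : X) : b.P F (x + y) = b.P F x + b.P F y := by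
  unfold P
  rw [← Finset.sum_add_distrib]
  apply Finset.sum_congr rfl
  intro i _
  rw [map_add, add_smul]

theorem P_smul (F : Finset ℕ) (t : 𝕜) (x : X) : b.P F (t • x) = t • b.P F x := by
  unfold P
  rw [Finset.smul_sum]
  apply Finset.sum_congr rfl
  intro i _
  rw [map_smul, smul_smul, smul_eq_mul]

theorem G2_add (u u' : X) (R R' : ℝ) (h : b.G2 u R) (h' : b.G2 u' R') :
    b.G2 (u + u') (R + R') := by
  intro F
  have : u + u' - b.P F (u + u') = (u - b.P F u) + (u' - b.P F u') := by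
    rw [b.P_add]; abel
  rw [this]
  exact (norm_add_le _ _).trans (add_le_add (h F) (h' F))

theorem G2_smul (t : 𝕜) (u : X) (R : ℝ) (h : b.G2 u R) : b.G2 (t • u) (‖t‖ * R) := by
  intro F
  have : t • u - b.P F (t • u) = t • (u - b.P F u) := by
    rw [b.P_smul, smul_sub]
  rw [this, norm_smul]
  exact mul_le_mul_of_nonneg_left (h F) (norm_nonneg _)

/-- the new norm -/
noncomputable def N (C1 : ℝ) (h1 : 1 ≤ C1) : Seminorm 𝕜 X :=
  Seminorm.ofSMulLE (fun x => sInf (b.S C1 x))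
    (by
      apply le_antisymm
      · have := csInf_le (b.S_bdd C1 h1 0) (b.S_mem C1 0)
        simpa using this
      · apply le_csInf ⟨_, b.S_mem C1 0⟩
        intro r hr
        have := b.S_ge C1 h1 0 r hr
        simpa using this)
    (by
      intro x y
      rw [← sub_le_iff_le_add]
      apply le_csInf ⟨_, b.S_mem C1 x⟩
      intro r hr
      rw [sub_le_comm]
      apply le_csInf ⟨_, b.S_mem C1 y⟩
      intro s hs
      rw [sub_le_iff_le_add]
      apply csInf_le (b.S_bdd C1 h1 _)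
      obtain ⟨u, v, R1, R2, h3, h4, h5, h6⟩ := hr
      obtain ⟨u', v', R1', R2', h3', h4', h5', h6'⟩ := hs
      refine ⟨u' + u, v' + v, R1' + R1, R2' + R2, ?_, b.G1_add _ _ _ _ h4' h4,
        b.G2_add _ _ _ _ h5' h5, ?_⟩
      · rw [← h3, ← h3']; abel
      · rw [h6, h6']; ring)
    (by
      intro t x
      rcases eq_or_ne t 0 with h0 | h0
      · rw [h0, zero_smul, norm_zero, zero_mul]
        have := csInf_le (b.S_bdd C1 h1 0) (b.S_mem C1 0)
        simpa using this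
      · have ht : 0 < ‖t‖ := norm_pos_iff.2 h0
        rw [← div_le_iff₀' ht]
        apply le_csInf ⟨_, b.S_mem C1 x⟩
        intro r hr
        rw [div_le_iff₀' ht]
        apply csInf_le (b.S_bdd C1 h1 _)
        obtain ⟨u, v, R1, R2, h3, h4, h5, h6⟩ := hr
        refine ⟨t • u, t • v, ‖t‖ * R1, ‖t‖ * R2, ?_, b.G1_smul _ _ _ h4, b.G2_smul _ _ _ h5, ?_⟩
        · rw [← h3, smul_add]
        · rw [h6]; ring)

theorem N_apply (C1 : ℝ) (h1 : 1 ≤ C1) (x : X) : b.N C1 h1 x = sInf (b.S C1 x) := rfl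

theorem P_sdiff (F O : Finset ℕ) (v : X) : b.P F (v - b.P O v) = b.P (F \ O) v := by
  have h1 : ∀ i, b.f i (v - b.P O v) = if i ∈ O then 0 else b.f i v := by
    intro i
    rw [map_sub, b.f_P]
    split_ifs <;> simp
  unfold P at h1 ⊢
  simp only [h1]
  rw [Finset.sdiff_eq_filter, Finset.sum_filter]
  apply Finset.sum_congr rfl
  intro i _
  split_ifs <;> simp

theorem P_union (O F : Finset ℕ) (v : X) : b.P O v + b.P (F \ O) v = b.P (O ∪ F) v := by
  unfold P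
  rw [← Finset.sum_union Finset.disjoint_sdiff, Finset.union_sdiff_self_eq_union]

theorem G2_compl (O : Finset ℕ) (v : X) (R : ℝ) (h : b.G2 v R) : b.G2 (v - b.P O v) R := by
  intro F
  rw [b.P_sdiff]
  have : v - b.P O v - b.P (F \ O) v = v - b.P (O ∪ F) v := by
    rw [← b.P_union]; abel
  rw [this]
  exact h _

theorem key (C1 : ℝ) (hC1 : 1 ≤ C1) (δ : ℝ) (hδ : 0 < δ) (ε : ℝ)
    (Δ : ℝ) (hΔ : Δ = b.C ^ 2 * (b.C ^ 2 * (1 + b.C)))
    (hε1 : δ * Δ ≤ ε) (hε2 : δ * Δ + Δ / δ ≤ ε * C1)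
    (x : X) (A B : Finset ℕ) (a : ℕ → 𝕜)
    (hA : ∀ i ∈ A, ∀ j ∉ A, ‖b.f j x‖ ≤ ‖b.f i x‖) (hcard : B.card ≤ A.card) (r : ℝ)
    (hr : r ∈ b.S C1 (x - ∑ i ∈ B, a i • b.e i)) :
    ∃ r' ∈ b.S C1 (x - ∑ i ∈ A, b.f i x • b.e i), r' ≤ (1 + ε) * r := by
  obtain ⟨u, v, R1, R2, hw, hu, hv, rfl⟩ := hr
  set w := x - ∑ i ∈ B, a i • b.e i with hwdef
  set O := A ∪ B with hO
  set D := A \ B with hD
  set E := B \ A with hE
  have hDE : E.card ≤ D.card := by
    show (B \ A).card ≤ (A \ B).card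
    have h1 := Finset.card_sdiff_add_card_inter A B
    have h2 := Finset.card_sdiff_add_card_inter B A
    rw [Finset.inter_comm] at h2
    omega
  -- threshold
  obtain ⟨α, hα0, hαD, hαE⟩ : ∃ α : ℝ, 0 ≤ α ∧ (∀ i ∈ D, α ≤ ‖b.f i x‖) ∧
      ∀ j ∈ E, ‖b.f j x‖ ≤ α := by
    rcases E.eq_empty_or_nonempty with h | h
    · exact ⟨0, le_rfl, fun i _ => norm_nonneg _, fun j hj => by simp [h] at hj⟩
    · obtain ⟨j0, hj0, hmax⟩ := E.exists_max_image (fun j => ‖b.f j x‖) h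
      refine ⟨‖b.f j0 x‖, norm_nonneg _, fun i hi => ?_, fun j hj => hmax j hj⟩
      exact hA i (Finset.mem_sdiff.1 hi).1 j0 (Finset.mem_sdiff.1 hj0).2
  obtain ⟨D', hD'sub, hD'card⟩ := Finset.exists_subset_card_eq hDE
  have hdisj : Disjoint D' E := by
    rw [Finset.disjoint_left]
    intro k hk hkE
    have h1 := (Finset.mem_sdiff.1 (hD'sub hk)).1
    exact (Finset.mem_sdiff.1 hkE).2 h1
  obtain ⟨σ, hσ1, hσ2⟩ := exists_perm D' E hdisj hD'card
  -- coefficient of w on D'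
  have hwD : ∀ k ∈ D', b.f k w = b.f k x := by
    intro k hk
    have h1 := (Finset.mem_sdiff.1 (hD'sub hk)).2
    rw [hwdef, map_sub, b.f_sum, if_neg h1, sub_zero]
  have hwα : ∀ k ∈ D', α ≤ ‖b.f k w‖ := fun k hk => by
    rw [hwD k hk]; exact hαD k (hD'sub hk)
  have hnw : ‖w‖ ≤ R1 + R2 := by
    rw [← hw]
    exact (norm_add_le _ _).trans (add_le_add (b.G1_norm u R1 hu) (b.G2_norm v R2 hv))
  have hnv : ‖v‖ ≤ R2 := b.G2_norm v R2 hv
  have hR2 : 0 ≤ R2 := (norm_nonneg _).trans hnv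
  have hR1 : 0 ≤ R1 := b.G1_nonneg u R1 hu
  have hC := b.C_pos
  have hΔ0 : 0 ≤ Δ := by rw [hΔ]; positivity
  -- the two extra terms
  set D1 := D'.filter (fun k => δ * α ≤ ‖b.f k v‖) with hD1
  set φ : ℕ → ℝ := fun m => b.C ^ 2 * b.ψ m with hφ
  have hφ1 : α * φ D'.card ≤ Δ * (R1 + R2) := by
    have h1 := b.F2 w D' α hα0 hwα
    have h2 : α * φ D'.card = b.C ^ 2 * (α * b.ψ D'.card) := by rw [hφ]; ring
    rw [h2, hΔ]
    calc b.C ^ 2 * (α * b.ψ D'.card) ≤ b.C ^ 2 * (b.C ^ 2 * (1 + b.C) * ‖w‖) := by gcongr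
      _ ≤ b.C ^ 2 * (b.C ^ 2 * (1 + b.C) * (R1 + R2)) := by gcongr
      _ = _ := by ring
  have hφ2 : α * φ D1.card ≤ Δ / δ * R2 := by
    have h1 := b.F2 v D1 (δ * α) (by positivity) (fun k hk => (Finset.mem_filter.1 hk).2)
    have h2 : α * φ D1.card = b.C ^ 2 * ((δ * α) * b.ψ D1.card) / δ := by
      rw [hφ]; field_simp
    rw [h2, hΔ, div_mul_eq_mul_div]
    apply div_le_div_of_nonneg_right _ hδ.le
    calc b.C ^ 2 * (δ * α * b.ψ D1.card) ≤ b.C ^ 2 * (b.C ^ 2 * (1 + b.C) * ‖v‖) := by gcongr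
      _ ≤ b.C ^ 2 * (b.C ^ 2 * (1 + b.C) * R2) := by gcongr
      _ = _ := by ring
  -- the new decomposition
  refine ⟨(R1 + δ * (α * φ D'.card) + α * φ D1.card) + C1 * R2,
    ⟨(u - b.P O u) + b.P E x, v - b.P O v, _, R2, ?_, ?_, b.G2_compl O v R2 hv, rfl⟩, ?_⟩
  · -- sum
    have h1 : w - b.P O w = x - b.P O x := by
      have h2 : b.P O (∑ i ∈ B, a i • b.e i) = ∑ i ∈ B, a i • b.e i := by
        unfold P
        have h3 : ∀ i ∈ O, i ∉ B → b.f i (∑ i ∈ B, a i • b.e i) • b.e i = 0 := by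
          intro i _ hi
          rw [b.f_sum, if_neg hi, zero_smul]
        rw [← Finset.sum_subset Finset.subset_union_right h3]
        apply Finset.sum_congr rfl
        intro i hi
        rw [b.f_sum, if_pos hi]
      have h4 : b.P O w + b.P O (∑ i ∈ B, a i • b.e i) = b.P O x := by
        rw [← b.P_add, hwdef]; congr 1; abel
      rw [h2] at h4
      rw [← h4, hwdef]
      abel
    have h2 : b.P O x = b.P A x + b.P E x := by
      rw [hE, b.P_union]
    have h3 : u - b.P O u + b.P E x + (v - b.P O v) = (u + v) - b.P O (u + v) + b.P E x := by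
      rw [b.P_add]; abel
    rw [h3, hw, h1, h2]
    unfold P
    abel
  · -- symmetric norm bound
    intro g hg F
    set g' : ℕ → ℝ := fun k => g (σ k) with hg'
    have hg'M := b.M_perm g hg σ
    -- coefficients of u'
    have hcoef : ∀ i, ‖b.f i ((u - b.P O u) + b.P E x)‖ =
        if i ∈ E then ‖b.f i x‖ else if i ∈ O then 0 else ‖b.f i u‖ := by
      intro i
      rw [map_add, map_sub, b.f_P, b.f_P]
      by_cases hiE : i ∈ E
      · have hiO : i ∈ O := Finset.mem_union_right _ (Finset.mem_sdiff.1 hiE).1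
        simp [hiE, hiO]
      · by_cases hiO : i ∈ O
        · simp [hiE, hiO]
        · simp [hiE, hiO]
    have hstep1 : ∑ i ∈ F, g i * ‖b.f i ((u - b.P O u) + b.P E x)‖ ≤
        ∑ i ∈ F \ O, g i * ‖b.f i u‖ + ∑ i ∈ E, g i * α := by
      have h1 : ∀ i ∈ F, g i * ‖b.f i ((u - b.P O u) + b.P E x)‖ ≤
          (if i ∉ O then g i * ‖b.f i u‖ else 0) + (if i ∈ E then g i * α else 0) := by
        intro i _
        rw [hcoef]
        by_cases hiE : i ∈ E
        · have hiO : i ∈ O := Finset.mem_union_right _ (Finset.mem_sdiff.1 hiE).1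
          simp only [hiE, hiO, if_true, not_true_eq_false, if_false, zero_add]
          exact mul_le_mul_of_nonneg_left (hαE i hiE) (hg.1 i)
        · by_cases hiO : i ∈ O
          · simp [hiE, hiO]
          · simp [hiE, hiO]
      refine (Finset.sum_le_sum h1).trans ?_
      rw [Finset.sum_add_distrib, Finset.sdiff_eq_filter, Finset.sum_filter]
      refine add_le_add le_rfl ?_
      rw [← Finset.sum_filter]
      apply Finset.sum_le_sum_of_subset_of_nonneg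
      · intro i hi
        exact (Finset.mem_filter.1 hi).2
      · intro i _ _
        exact mul_nonneg (hg.1 i) hα0
    have hstep2 : ∑ i ∈ F \ O, g i * ‖b.f i u‖ = ∑ k ∈ F \ O, g' k * ‖b.f k u‖ := by
      apply Finset.sum_congr rfl
      intro i hi
      have hiO := (Finset.mem_sdiff.1 hi).2
      have h1 : i ∉ D' := fun h => hiO (Finset.mem_union_left _ (Finset.mem_sdiff.1 (hD'sub h)).1)
      have h2 : i ∉ E := fun h => hiO (Finset.mem_union_right _ (Finset.mem_sdiff.1 h).1)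
      rw [hg']
      simp only
      rw [hσ2 i h1 h2]
    have hstep3 : ∑ i ∈ E, g i * α = ∑ k ∈ D', g' k * α := by
      rw [← hσ1, Finset.sum_map]
      rfl
    have hstep4 : ∑ k ∈ D', g' k * α ≤
        ∑ k ∈ D', g' k * ‖b.f k u‖ + δ * (α * ∑ k ∈ D', g' k) + α * ∑ k ∈ D1, g' k := by
      rw [hD1, Finset.sum_filter, Finset.mul_sum, Finset.mul_sum, Finset.mul_sum,
        ← Finset.sum_add_distrib, ← Finset.sum_add_distrib]
      apply Finset.sum_le_sum
      intro k hk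
      have h1 := hwα k hk
      rw [← hw, map_add] at h1
      have h2 := h1.trans (norm_add_le _ _)
      have h3 := hg'M.1 k
      have h4 := norm_nonneg (b.f k u)
      split_ifs with h
      · have h5 : 0 ≤ g' k * ‖b.f k u‖ := mul_nonneg h3 h4
        have h6 : 0 ≤ δ * (α * g' k) := by positivity
        nlinarith
      · push Not at h
        have h5 : α ≤ ‖b.f k u‖ + δ * α := by linarith
        have h6 := mul_le_mul_of_nonneg_left h5 h3
        nlinarith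
    have hstep5 : ∑ k ∈ F \ O, g' k * ‖b.f k u‖ + ∑ k ∈ D', g' k * ‖b.f k u‖ ≤ R1 := by
      have hd : Disjoint (F \ O) D' := by
        rw [Finset.disjoint_left]
        intro k hk hkD
        exact (Finset.mem_sdiff.1 hk).2
          (Finset.mem_union_left _ (Finset.mem_sdiff.1 (hD'sub hkD)).1)
      rw [← Finset.sum_union hd]
      exact hu g' hg'M _
    have hM1 : ∑ k ∈ D', g' k ≤ φ D'.card := hg'M.2 D'
    have hM2 : ∑ k ∈ D1, g' k ≤ φ D1.card := hg'M.2 D1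
    have h7 : δ * (α * ∑ k ∈ D', g' k) ≤ δ * (α * φ D'.card) := by gcongr
    have h8 : α * ∑ k ∈ D1, g' k ≤ α * φ D1.card := by gcongr
    rw [hstep2, hstep3] at hstep1
    linarith
  · -- cost
    have h9 : δ * (α * φ D'.card) ≤ δ * Δ * (R1 + R2) := by
      calc δ * (α * φ D'.card) ≤ δ * (Δ * (R1 + R2)) := by gcongr
        _ = _ := by ring
    have h10 : δ * Δ * R1 ≤ ε * R1 := mul_le_mul_of_nonneg_right hε1 hR1
    have h11 : (δ * Δ + Δ / δ) * R2 ≤ ε * C1 * R2 := mul_le_mul_of_nonneg_right hε2 hR2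
    nlinarith

theorem final (ε : ℝ) (hε : 0 < ε) :
    ∃ N : Seminorm 𝕜 X,
      (∃ c : ℝ, 0 < c ∧ ∃ D : ℝ, ∀ x : X, c * ‖x‖ ≤ N x ∧ N x ≤ D * ‖x‖) ∧
      ∀ (x : X) (A B : Finset ℕ) (a : ℕ → 𝕜),
        (∀ i ∈ A, ∀ j ∉ A, ‖b.f j x‖ ≤ ‖b.f i x‖) → B.card ≤ A.card →
        N (x - ∑ i ∈ A, b.f i x • b.e i) ≤ (1 + ε) * N (x - ∑ i ∈ B, a i • b.e i) := by
  have hC := b.C_pos
  set Δ := b.C ^ 2 * (b.C ^ 2 * (1 + b.C)) with hΔ
  have hΔ0 : 0 < Δ := by positivity
  set δ := ε / Δ with hδ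
  have hδ0 : 0 < δ := by positivity
  set C1 := 1 + (ε + Δ / δ) / ε with hC1
  have hC1' : 1 ≤ C1 := by
    have : 0 ≤ (ε + Δ / δ) / ε := by positivity
    linarith
  have h1 : δ * Δ = ε := by rw [hδ]; field_simp
  have h2 : δ * Δ + Δ / δ ≤ ε * C1 := by
    rw [h1, hC1, mul_add, mul_one, mul_div_cancel₀ _ hε.ne']
    linarith
  refine ⟨b.N C1 hC1', ⟨1, one_pos, C1 * b.C, fun x => ⟨?_, ?_⟩⟩, ?_⟩
  · rw [one_mul, b.N_apply]
    exact le_csInf ⟨_, b.S_mem C1 x⟩ fun r hr => b.S_ge C1 hC1' x r hr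
  · rw [b.N_apply, mul_assoc]
    exact csInf_le (b.S_bdd C1 hC1' x) (b.S_mem C1 x)
  · intro x A B a hA hcard
    rw [b.N_apply, b.N_apply, ← div_le_iff₀' (by linarith : 0 < 1 + ε)]
    apply le_csInf ⟨_, b.S_mem C1 _⟩
    intro r hr
    rw [div_le_iff₀' (by linarith : 0 < 1 + ε)]
    obtain ⟨r', hr', hle⟩ := b.key C1 hC1' δ hδ0 ε Δ hΔ h1.le h2 x A B a hA hcard r hr
    exact (csInf_le (b.S_bdd C1 hC1' _) hr').trans hle

end GB

end Pool.Agent.H48R3.GR
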